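import Pool.Agent.H74.TSD.Targets

/-!
# Module A1: the area by horizontal slices
-/

set_option autoImplicit false

open MeasureTheory Set Metric Filter
open scoped ENNReal Pointwise Topology

namespace Pool.Agent.H74.TSD

theorem pf_A1 : T_A1 := by
  intro X hX
  have hm : MeasurableSet X := hX.measurableSet
  have hv : volume X = ∫⁻ h : ℝ, volume {t : ℝ | (t, h) ∈ X} := by
    rw [Measure.volume_eq_prod, Measure.prod_apply_symm hm]
    rfl
  have hmeas : Measurable (fun h : ℝ => volume {t : ℝ | (t, h) ∈ X}) :=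
    measurable_measure_prodMk_right hm
  have hlt : ∀ h : ℝ, volume {t : ℝ | (t, h) ∈ X} < ⊤ := by
    intro h
    refine lt_of_le_of_lt (measure_mono ?_) (hX.image continuous_fst).measure_lt_top
    intro t ht
    exact ⟨(t, h), ht, rfl⟩
  have hfin : ∫⁻ h : ℝ, volume {t : ℝ | (t, h) ∈ X} ≠ ⊤ := by
    rw [← hv]; exact hX.measure_lt_top.ne
  refine ⟨integrable_toReal_of_lintegral_ne_top hmeas.aemeasurable hfin, ?_⟩
  rw [integral_toReal hmeas.aemeasurable (Eventually.of_forall hlt), ← hv]
  rfl

end Pool.Agent.H74.TSD
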