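import Pool.Agent.H74.TSD.A1
import Pool.Agent.H14.TSD.A2
import Pool.Agent.H14.TSD.A3
import Pool.Agent.H19.TSD.A4
import Pool.Agent.H19.TSD.A5
import Pool.Agent.H59.TSD.A6
import Pool.Agent.H91.TSD.A7
import Pool.Agent.H19.TSD.A8
import Pool.Agent.H19.TSD.LM
import Pool.Agent.H50.TSD.PT
import Pool.Agent.H65.TSD.W1
import Pool.Agent.H65.TSD.PG
import Pool.Agent.H83.TS.PAR
import Pool.Agent.H33.TS.LAD
import Pool.Agent.H54.TS.LAC
import Pool.Agent.H78.TS.LAT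

/-!
# Assembly: counting in the plane, and facts common to the theorems
-/

namespace Pool.Agent.H74.TSD

open Pool.Agent.H73.TS

theorem aPT : T_PT :=
  Pool.Agent.H50.TSD.pf_PT (Pool.Agent.H19.TSD.pf_A8
    (Pool.Agent.H91.TSD.pf_A7 Pool.Agent.H19.TSD.pf_A4
      (Pool.Agent.H59.TSD.pf_A6 (Pool.Agent.H14.TSD.pf_A2 pf_A1) (Pool.Agent.H14.TSD.pf_A3 pf_A1)
        Pool.Agent.H19.TSD.pf_A5))
    Pool.Agent.H19.TSD.pf_LM)

theorem aPG : T_PG := Pool.Agent.H65.TSD.pg Pool.Agent.H65.TSD.w1 Pool.Agent.H83.TS.par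

theorem aLAD : T_LAD :=
  Pool.Agent.H33.TS.pf_LAD Pool.Agent.H78.TS.lat (Pool.Agent.H54.TS.lac Pool.Agent.H83.TS.par)

end Pool.Agent.H74.TSD
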