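import Pool.Agent.H74.TSD.Targets
import Pool.Agent.H34.TS.DEN

/-!
# Module BD: from the counting in boxes to the densities
-/

set_option autoImplicit false

open MeasureTheory Set Metric Filter
open scoped ENNReal Pointwise Topology

namespace Pool.Agent.H74.TSD

open Pool.Agent.H73.TS

/-- coordinates given by `d` independent functionals -/
theorem coordL {d : ℕ} (F : Fin d → (E d →L[ℝ] ℝ)) (hF : dt F ≠ 0) :
    ∃ L : E d ≃L[ℝ] E d, (∀ x i, (L x) i = F i x) ∧
      LinearMap.det (L : E d →ₗ[ℝ] E d) = dt F := by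
  set Lm : E d →ₗ[ℝ] E d :=
    (WithLp.linearEquiv 2 ℝ (Fin d → ℝ)).symm.toLinearMap ∘ₗ
      LinearMap.pi (fun i => (F i : E d →ₗ[ℝ] ℝ)) with hLm
  have hap : ∀ x i, (Lm x) i = F i x := fun x i => rfl
  have hdet : LinearMap.det Lm = dt F := by
    rw [← LinearMap.det_toMatrix (EuclideanSpace.basisFun (Fin d) ℝ).toBasis]
    unfold dt
    congr 1
  have hne : LinearMap.det Lm ≠ 0 := by rw [hdet]; exact hF
  refine ⟨(LinearMap.equivOfDetNeZero Lm hne).toContinuousLinearEquiv, fun x i => hap x i, ?_⟩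
  rw [← hdet]
  rfl

theorem pf_BD (hg : T_GRD) : T_BD := by
  intro d K T f c hd1 hK hf hc hB
  have hc0 : 0 < c := by linarith
  obtain ⟨s, hs0, hsd⟩ : ∃ s : ℝ, 0 < s ∧ s ^ d = c :=
    ⟨c ^ ((d : ℝ)⁻¹), Real.rpow_pos_of_pos hc0 _, Real.rpow_inv_natCast_pow hc0.le (by omega)⟩
  have hdtF : dt (fun i => s • f i) = c * dt f := by
    unfold dt
    rw [← hsd]
    have h1 : (Matrix.of fun i j => (s • f i) (EuclideanSpace.single j (1 : ℝ))) =
        s • (Matrix.of fun i j => f i (EuclideanSpace.single j (1 : ℝ))) := by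
      ext i j
      simp
    rw [h1, Matrix.det_smul, Fintype.card_fin]
  obtain ⟨L, hL, hLd⟩ := coordL (fun i => s • f i) (by rw [hdtF]; exact mul_ne_zero hc0.ne' hf)
  have hcount : ∀ ε : ℝ, 0 < ε → ∃ N : ℕ, 1 ≤ N ∧ ∀ (z : Fin d → ℤ) (S : Finset (E d)),
      (S : Set (E d)) ⊆ T → (∀ u ∈ S, ∀ i, (z i : ℝ) ≤ (L u) i ∧ (L u) i < z i + N) →
      (S.card : ℝ) ≤ (1 + ε) * (N : ℝ) ^ d := by
    intro ε hε
    have h1 : Tendsto (fun N : ℕ => (1 + s / (N : ℝ)) ^ d) atTop (𝓝 ((1 + 0) ^ d)) :=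
      (tendsto_const_nhds.add (tendsto_const_div_atTop_nhds_zero_nat s)).pow d
    rw [add_zero, one_pow] at h1
    obtain ⟨N, hN1, hN⟩ := ((eventually_ge_atTop 1).and
      (h1.eventually (gt_mem_nhds (show (1 : ℝ) < 1 + ε by linarith)))).exists
    refine ⟨N, hN1, ?_⟩
    intro z S hS hz
    have hN0 : (0 : ℝ) < N := by exact_mod_cast hN1
    have h2 := hB (fun i => (z i : ℝ) / s) (fun _ => (N : ℝ) / s) S (fun _ => by positivity) hS
      (by
        intro u hu i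
        obtain ⟨h3, h4⟩ := hz u hu i
        rw [hL] at h3 h4
        have h5 : (s • f i) u = s * f i u := rfl
        rw [h5] at h3 h4
        constructor
        · rw [div_le_iff₀ hs0, mul_comm]; exact h3
        · rw [← add_div, le_div_iff₀ hs0, mul_comm]; exact h4.le)
    rw [Finset.prod_const, Finset.card_univ, Fintype.card_fin] at h2
    have h3 : c * (1 + (N : ℝ) / s) ^ d = (N : ℝ) ^ d * (1 + s / (N : ℝ)) ^ d := by
      rw [← hsd, ← mul_pow, ← mul_pow]
      congr 1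
      field_simp
      ring
    calc (S.card : ℝ) ≤ 1 + c * ((1 + (N : ℝ) / s) ^ d - 1) := h2
      _ ≤ c * (1 + (N : ℝ) / s) ^ d := by linarith
      _ = (N : ℝ) ^ d * (1 + s / (N : ℝ)) ^ d := h3
      _ ≤ (N : ℝ) ^ d * (1 + ε) := by gcongr
      _ = (1 + ε) * (N : ℝ) ^ d := mul_comm _ _
  have h4 := hg d L K T hd1 hK hcount
  have h5 : |LinearMap.det (L : E d →ₗ[ℝ] E d)| = c * |dt f| := by
    rw [hLd, hdtF, abs_mul, abs_of_pos hc0]
  rw [h5] at h4
  exact Pool.Agent.H34.TS.den' d K T (ENNReal.ofReal (c * |dt f|)) hd1 ENNReal.ofReal_ne_top hK h4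

end Pool.Agent.H74.TSD
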