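import Pool.Agent.H74.TSD.Targets
import Pool.Agent.H34.TS.DEN

/-!
# The density bound for cylinders in normal position

This is helper51's module `Pool/Agent/H51/TSD/CD.lean` with the finiteness hypothesis of
`Pool.Agent.H34.TS.den'` taken into account.
-/

set_option autoImplicit false

open MeasureTheory Set Metric Filter
open scoped ENNReal Pointwise Topology

namespace Pool.Agent.H74.TSD.CDb

open Pool.Agent.H74.TSD Pool.Agent.H73.TS

/-- The area of a square plus a subset of `[-R, R]^2`. -/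
theorem ar_sq_add_le (C : Set (ℝ × ℝ)) (R a b N : ℝ) (hR : 0 ≤ R) (hN : 0 ≤ N)
    (hC : ∀ x ∈ C, |x.1| ≤ R ∧ |x.2| ≤ R) :
    ar (Set.Icc (a, b) (a + N, b + N) + C) ≤ (N + 2 * R) ^ 2 := by
  have hsub : Set.Icc (a, b) (a + N, b + N) + C ⊆
      Set.Icc (a - R) (a + N + R) ×ˢ Set.Icc (b - R) (b + N + R) := by
    rintro _ ⟨x, hx, y, hy, rfl⟩
    obtain ⟨h1, h2⟩ := hC y hy
    rw [abs_le] at h1 h2
    obtain ⟨hx1, hx2⟩ := hx
    simp only [Prod.le_def] at hx1 hx2
    refine ⟨⟨?_, ?_⟩, ⟨?_, ?_⟩⟩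
    · simp only [Prod.fst_add]; linarith [hx1.1, h1.1]
    · simp only [Prod.fst_add]; linarith [hx2.1, h1.2]
    · simp only [Prod.snd_add]; linarith [hx1.2, h2.1]
    · simp only [Prod.snd_add]; linarith [hx2.2, h2.2]
  have hvol : volume (Set.Icc (a - R) (a + N + R) ×ˢ Set.Icc (b - R) (b + N + R)) =
      ENNReal.ofReal (N + 2 * R) * ENNReal.ofReal (N + 2 * R) := by
    rw [Measure.volume_eq_prod, Measure.prod_prod, Real.volume_Icc, Real.volume_Icc]
    congr 2 <;> ring
  unfold ar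
  calc (volume (Set.Icc (a, b) (a + N, b + N) + C)).toReal
      ≤ (ENNReal.ofReal (N + 2 * R) * ENNReal.ofReal (N + 2 * R)).toReal := by
        apply ENNReal.toReal_mono
        · exact ENNReal.mul_ne_top ENNReal.ofReal_ne_top ENNReal.ofReal_ne_top
        · rw [← hvol]; exact measure_mono hsub
    _ = (N + 2 * R) ^ 2 := by
        rw [ENNReal.toReal_mul, ENNReal.toReal_ofReal (by positivity)]
        ring

theorem pf_CDb (h2 : T_G2) (hc : T_CC) (hg : T_GRD) (hp : T_PAR) : T_CD := by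
  intro n w v A K T hw hA hAi hN hK hKc hKi hW hT
  obtain ⟨C, hC, -⟩ := h2 A hA hAi hN
  obtain ⟨L, hL, hdet, -⟩ := hp (n + 2) w v hw
  -- the coordinates
  let φ : Fin (n + 2) → (E (n + 2) →L[ℝ] ℝ) := fun i =>
    (EuclideanSpace.proj i : E (n + 2) →L[ℝ] ℝ).comp (L : E (n + 2) →L[ℝ] E (n + 2))
  have hφ : ∀ i u, φ i u = (L u) i := fun i u => rfl
  have hφw : ∀ i j, φ i (w j) = if i = j then 1 else 0 := by
    intro i j
    rw [hφ, hL]
    simp
  -- a bound for the test body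
  obtain ⟨R₀, hR₀⟩ := hC.cpt.isBounded.exists_norm_le
  set R : ℝ := max R₀ 0 with hRdef
  have hR : 0 ≤ R := le_max_right _ _
  have hCR : ∀ x ∈ C, |x.1| ≤ R ∧ |x.2| ≤ R := by
    intro x hx
    have h := hR₀ x hx
    constructor
    · exact ((norm_fst_le x).trans h).trans (le_max_left _ _)
    · exact ((norm_snd_le x).trans h).trans (le_max_left _ _)
  -- counting in a cube
  have key : ∀ (N : ℕ) (z : Fin (n + 2) → ℤ) (S : Finset (E (n + 2))),
      (S : Set (E (n + 2))) ⊆ T →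
      (∀ u ∈ S, ∀ i, (z i : ℝ) ≤ (L u) i ∧ (L u) i < z i + N) →
      (S.card : ℝ) ≤ (N : ℝ) ^ n * (1 + ((N : ℝ) + 2 * R) ^ 2) := by
    intro N z S hS hz
    classical
    set f : E (n + 2) → (Fin n → ℤ) := fun u i => ⌊(L u) i.succ.succ⌋ with hf
    set t : Finset (Fin n → ℤ) :=
      Fintype.piFinset (fun i : Fin n => Finset.Ico (z i.succ.succ) (z i.succ.succ + (N : ℤ)))
      with ht
    have hmaps : ∀ u ∈ S, f u ∈ t := by
      intro u hu
      rw [ht, Fintype.mem_piFinset]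
      intro i
      rw [Finset.mem_Ico]
      obtain ⟨h1, h2⟩ := hz u hu i.succ.succ
      constructor
      · exact Int.le_floor.mpr h1
      · rw [Int.floor_lt]
        push_cast
        exact h2
    have hcard : (t.card : ℝ) = (N : ℝ) ^ n := by
      rw [ht, Fintype.card_piFinset]
      simp
    have hfib : ∀ m ∈ t, (((S.filter fun u => f u = m).card : ℕ) : ℝ) ≤
        1 + ((N : ℝ) + 2 * R) ^ 2 := by
      intro m _
      have h := hc n w v A C K T φ hA hAi hC hφw hK hKc hKi hW hT m (z 0) (z 1) N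
        (S.filter fun u => f u = m) ?_ (Nat.cast_nonneg N) ?_
      · have h3 := ar_sq_add_le C R (z 0) (z 1) N hR (Nat.cast_nonneg N) hCR
        have h4 : 0 ≤ ar C := ENNReal.toReal_nonneg
        linarith
      · intro u hu
        rw [Finset.mem_coe, Finset.mem_filter] at hu
        exact hS hu.1
      · intro u hu
        rw [Finset.mem_filter] at hu
        obtain ⟨hu, hfu⟩ := hu
        refine ⟨(hz u hu 0).1, (hz u hu 0).2.le, (hz u hu 1).1, (hz u hu 1).2.le, ?_⟩
        intro i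
        have h5 : ⌊(L u) i.succ.succ⌋ = m i := congrFun hfu i
        rw [hφ]
        rw [Int.floor_eq_iff] at h5
        exact h5
    rw [Finset.card_eq_sum_card_fiberwise (f := f) (t := t) hmaps]
    push_cast
    calc (∑ m ∈ t, (((S.filter fun u => f u = m).card : ℕ) : ℝ))
        ≤ ∑ _m ∈ t, (1 + ((N : ℝ) + 2 * R) ^ 2) := Finset.sum_le_sum hfib
      _ = (N : ℝ) ^ n * (1 + ((N : ℝ) + 2 * R) ^ 2) := by
        rw [Finset.sum_const, nsmul_eq_mul, hcard]
  have hlim := Pool.Agent.H34.TS.den' (n + 2) K T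
    (ENNReal.ofReal |LinearMap.det (L : E (n + 2) →ₗ[ℝ] E (n + 2))|)
    (by omega) ENNReal.ofReal_ne_top hK (hg (n + 2) L K T (by omega) hK ?_)
  · have hq : ENNReal.ofReal |LinearMap.det (L : E (n + 2) →ₗ[ℝ] E (n + 2))| =
        (volume (Par w v))⁻¹ := by
      apply ENNReal.eq_inv_of_mul_eq_one_left
      rw [mul_comm]
      exact hdet
    rw [hq, ← div_eq_mul_inv] at hlim
    exact hlim
  · intro ε hε
    obtain ⟨N, hN1⟩ := exists_nat_ge ((1 + 4 * R + 4 * R ^ 2) / ε)
    refine ⟨max N 1, le_max_right _ _, ?_⟩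
    intro z S hS hz
    refine (key (max N 1) z S hS hz).trans ?_
    set M : ℝ := ((max N 1 : ℕ) : ℝ) with hM
    have hM1 : 1 ≤ M := by
      rw [hM]; exact_mod_cast le_max_right N 1
    have hM2 : (1 + 4 * R + 4 * R ^ 2) / ε ≤ M := by
      refine hN1.trans ?_
      rw [hM]; exact_mod_cast le_max_left N 1
    have hM3 : 1 + 4 * R + 4 * R ^ 2 ≤ M * ε := (div_le_iff₀ hε).mp hM2
    have h6 : 1 + (M + 2 * R) ^ 2 ≤ (1 + ε) * M ^ 2 := by
      have h7 : (1 + 4 * R + 4 * R ^ 2) * M ≤ (M * ε) * M :=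
        mul_le_mul_of_nonneg_right hM3 (by linarith)
      nlinarith [sq_nonneg R, mul_nonneg (sub_nonneg.mpr hM1) (sq_nonneg R)]
    calc M ^ n * (1 + (M + 2 * R) ^ 2) ≤ M ^ n * ((1 + ε) * M ^ 2) :=
          mul_le_mul_of_nonneg_left h6 (by positivity)
      _ = (1 + ε) * M ^ (n + 2) := by ring

end Pool.Agent.H74.TSD.CDb
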