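import Pool.Agent.H73.TS.DefsB

/-!
# Totally separable packings: restricted directions, cylinders, a universal bound in dimension 3

Definitions.
-/

set_option autoImplicit false

open MeasureTheory Set Metric
open scoped ENNReal Pointwise

namespace Pool.Agent.H74.TSD

open Pool.Agent.H73.TS

/-! ## The plane -/

/-- The wedge product of two vectors of the plane. -/
def wd (u v : ℝ × ℝ) : ℝ := u.1 * v.2 - u.2 * v.1

/-- The linear functional with the coefficients `p`. -/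
def ev (p x : ℝ × ℝ) : ℝ := p.1 * x.1 + p.2 * x.2

/-- Rotation by a right angle. -/
def rot (p : ℝ × ℝ) : ℝ × ℝ := (-p.2, p.1)

/-- The area. -/
noncomputable def ar (X : Set (ℝ × ℝ)) : ℝ := (volume X).toReal

/-- The segment from `0` to `v`. -/
def seg (v : ℝ × ℝ) : Set (ℝ × ℝ) := {x | ∃ t : ℝ, 0 ≤ t ∧ t ≤ 1 ∧ x = t • v}

/-- The horizontal segment from `(p, t)` to `(p + l, t)`. -/
def hsg (p l t : ℝ) : Set (ℝ × ℝ) := {x | p ≤ x.1 ∧ x.1 ≤ p + l ∧ x.2 = t}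

/-- Any two points of `S` are separated by an open slab of width one in a direction of `U`, which
contains no point of `S`. -/
def SepBy (U : Set (ℝ × ℝ)) (S : Finset (ℝ × ℝ)) : Prop :=
  ∀ x ∈ S, ∀ y ∈ S, x ≠ y → ∃ p ∈ U, ∃ t : ℝ,
    ((ev p x ≤ t ∧ t + 1 ≤ ev p y) ∨ (ev p y ≤ t ∧ t + 1 ≤ ev p x)) ∧
    ∀ z ∈ S, ev p z ≤ t ∨ t + 1 ≤ ev p z

/-- The test body `C` is adapted to the set `U` of functionals and to the number `M`. -/
structure Good (U : Set (ℝ × ℝ)) (M : ℝ) (C : Set (ℝ × ℝ)) : Prop where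
  cpt : IsCompact C
  cvx : Convex ℝ C
  sym : ∀ x ∈ C, -x ∈ C
  wid : ∀ p ∈ U, ∀ x ∈ C, |ev p x| ≤ 1 / 2
  mem : ∀ p ∈ U, (1 / (2 * M)) • rot p ∈ C

/-! ## Boxes -/

/-- The linear map to the plane with the columns `γ i`. -/
def pr {d : ℕ} (γ : Fin d → ℝ × ℝ) (x : Fin d → ℝ) : ℝ × ℝ := ∑ i, x i • γ i

/-- Any two points of `S` are separated by an open slab of width one which contains no point of
`S`, either in the direction of a coordinate or in the direction of a functional of `U` composed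
with `pr γ`. -/
def SepMix {d : ℕ} (γ : Fin d → ℝ × ℝ) (U : Set (ℝ × ℝ)) (S : Finset (Fin d → ℝ)) : Prop :=
  ∀ x ∈ S, ∀ y ∈ S, x ≠ y →
    (∃ (i : Fin d) (t : ℝ), ((x i ≤ t ∧ t + 1 ≤ y i) ∨ (y i ≤ t ∧ t + 1 ≤ x i)) ∧
      ∀ z ∈ S, z i ≤ t ∨ t + 1 ≤ z i) ∨
    (∃ p ∈ U, ∃ t : ℝ, ((ev p (pr γ x) ≤ t ∧ t + 1 ≤ ev p (pr γ y)) ∨
        (ev p (pr γ y) ≤ t ∧ t + 1 ≤ ev p (pr γ x))) ∧
      ∀ z ∈ S, ev p (pr γ z) ≤ t ∨ t + 1 ≤ ev p (pr γ z))

/-! ## Space -/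

/-- The family of the translates `t + K`, `t ∈ T`, is totally separable with hyperplanes whose
normals belong to `N`: any two of the translates are separated by a hyperplane `f = c` with
`f ∈ N` that is disjoint from the interior of every translate of the family. -/
def TotSepIn {d : ℕ} (N : Set (E d →L[ℝ] ℝ)) (K T : Set (E d)) : Prop :=
  ∀ t ∈ T, ∀ s ∈ T, t ≠ s →
    ∃ f ∈ N, ∃ c : ℝ, f ≠ 0 ∧
      (∀ x ∈ K, f (t + x) ≤ c) ∧ (∀ x ∈ K, c ≤ f (s + x)) ∧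
      ∀ u ∈ T, ∀ y ∈ interior ((fun x => u + x) '' K), f y ≠ c

/-- The multiples of the functionals `f i`, and the functionals of `W`. -/
def Nrm {d : ℕ} (f : Fin d → (E d →L[ℝ] ℝ)) (W : Submodule ℝ (E d →L[ℝ] ℝ)) :
    Set (E d →L[ℝ] ℝ) :=
  {g | (∃ (i : Fin d) (a : ℝ), g = a • f i) ∨ g ∈ W}

/-- The width of `K` in the direction of `f`. -/
noncomputable def wdt {d : ℕ} (K : Set (E d)) (f : E d →L[ℝ] ℝ) : ℝ :=
  sSup (f '' K) - sInf (f '' K)

/-- The determinant of `d` functionals. -/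
noncomputable def dt {d : ℕ} (g : Fin d → (E d →L[ℝ] ℝ)) : ℝ :=
  Matrix.det (Matrix.of fun i j => g i (EuclideanSpace.single j (1 : ℝ)))

/-- The number of members of the family in every box is at most that of the box function. -/
def BoxCount {d : ℕ} (f : Fin d → (E d →L[ℝ] ℝ)) (T : Set (E d)) (c : ℝ) : Prop :=
  ∀ (a b : Fin d → ℝ) (S : Finset (E d)), (∀ i, 0 ≤ b i) → (S : Set (E d)) ⊆ T →
    (∀ u ∈ S, ∀ i, a i ≤ f i u ∧ f i u ≤ a i + b i) →
    (S.card : ℝ) ≤ 1 + c * (∏ i, (1 + b i) - 1)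

/-! ## Cylinders -/

/-- The width of the planar set `A` in the direction `p`. -/
noncomputable def wdt2 (A : Set (ℝ × ℝ)) (p : ℝ × ℝ) : ℝ := sSup (ev p '' A) - sInf (ev p '' A)

/-- The cylinder over the planar set `A`, in the coordinates given by `w` and `v`: the first two
coordinates form a point of `A`, the other coordinates are between `0` and `1`. -/
def Cyl {n : ℕ} (w : Fin (n + 2) → E (n + 2)) (v : E (n + 2)) (A : Set (ℝ × ℝ)) :
    Set (E (n + 2)) :=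
  {y | ∃ a : Fin (n + 2) → ℝ, (a 0, a 1) ∈ A ∧ (∀ i : Fin n, a i.succ.succ ∈ Set.Icc (0 : ℝ) 1) ∧
    y = v + ∑ i, a i • w i}

/-! ## Dimension three -/

/-- The functional `x ↦ ⟨a, B x⟩`. -/
noncomputable def fa (B : E 3 ≃L[ℝ] E 3) (a : E 3) : E 3 →L[ℝ] ℝ :=
  (innerSL ℝ a).comp (B : E 3 →L[ℝ] E 3)

/-- The determinant of three vectors. -/
def det3 (a b c : E 3) : ℝ :=
  a 0 * (b 1 * c 2 - b 2 * c 1) - a 1 * (b 0 * c 2 - b 2 * c 0) + a 2 * (b 0 * c 1 - b 1 * c 0)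

/-- The quadratic coordinates of a vector. -/
def qd (a : E 3) : Fin 5 → ℝ := ![a 0 ^ 2, a 1 ^ 2, a 0 * a 1, a 0 * a 2, a 1 * a 2]

end Pool.Agent.H74.TSD
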