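import Pool.Agent.H74.TSD.Defs

/-!
# Abbreviations used in the final statements
-/

set_option autoImplicit false

open MeasureTheory Set Metric
open scoped ENNReal

namespace Pool.Agent.H74.TSD

open Pool.Agent.H73.TS

/-- `K` is a convex body. -/
def Body {d : ℕ} (K : Set (E d)) : Prop := IsCompact K ∧ Convex ℝ K ∧ (interior K).Nonempty

/-- Both upper densities of the family of the translates `t + K`, `t ∈ T`, are at most
`vol K / vol P`. -/
def DensLe {d : ℕ} (K P T : Set (E d)) : Prop :=
  upDens K T ≤ volume K / volume P ∧ upDensC K T ≤ volume K / volume P

/-- Both upper densities of the family of the translates `t + K`, `t ∈ T`, are equal to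
`vol K / vol P`. -/
def DensEq {d : ℕ} (K P T : Set (E d)) : Prop :=
  upDens K T = volume K / volume P ∧ upDensC K T = volume K / volume P

end Pool.Agent.H74.TSD
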