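import Pool.Agent.H74.TSD.Targets

/-!
# Assembly of the theorem on restricted directions
-/

set_option autoImplicit false

open MeasureTheory Set Metric Filter
open scoped ENNReal Pointwise Topology

namespace Pool.Agent.H74.TSD

open Pool.Agent.H73.TS

theorem ext_sub {V : Type*} [AddCommGroup V] [Module ℝ V] [FiniteDimensional ℝ V]
    (W : Submodule ℝ V) : ∀ k : ℕ, Module.finrank ℝ W + k ≤ Module.finrank ℝ V →
    ∃ W' : Submodule ℝ V, W ≤ W' ∧ Module.finrank ℝ W' = Module.finrank ℝ W + k := by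
  intro k
  induction k with
  | zero => intro _; exact ⟨W, le_rfl, rfl⟩
  | succ k ih =>
    intro hk
    obtain ⟨W', hW', hf⟩ := ih (by omega)
    obtain ⟨x, hx⟩ : ∃ x, x ∉ W' := by
      by_contra hcon
      push Not at hcon
      have : W' = ⊤ := by
        rw [eq_top_iff]; intro x _; exact hcon x
      rw [this, finrank_top] at hf
      omega
    refine ⟨W' ⊔ Submodule.span ℝ {x}, hW'.trans le_sup_left, ?_⟩
    rw [Submodule.finrank_sup_span_singleton hx, hf]
    ring

theorem exists_pq {V : Type*} [AddCommGroup V] [Module ℝ V] [FiniteDimensional ℝ V]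
    (W : Submodule ℝ V) (h2 : Module.finrank ℝ W ≤ 2) (hV : 2 ≤ Module.finrank ℝ V) :
    ∃ p q : V, LinearIndependent ℝ ![p, q] ∧ W ≤ Submodule.span ℝ {p, q} := by
  obtain ⟨W', hW', hf⟩ := ext_sub W (2 - Module.finrank ℝ W) (by omega)
  have hf2 : Module.finrank ℝ W' = 2 := by omega
  set b : Module.Basis (Fin 2) ℝ W' := Module.finBasisOfFinrankEq ℝ W' hf2 with hb
  have hli : LinearIndependent ℝ (fun i => (b i : V)) :=
    b.linearIndependent.map' W'.subtype (Submodule.ker_subtype W')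
  refine ⟨b 0, b 1, ?_, ?_⟩
  · have : (![(b 0 : V), (b 1 : V)] : Fin 2 → V) = fun i => (b i : V) := by
      funext i
      fin_cases i <;> rfl
    rw [this]
    exact hli
  · intro x hx
    have h3 := b.sum_repr ⟨x, hW' hx⟩
    rw [Fin.sum_univ_two] at h3
    have h4 := congrArg Subtype.val h3
    simp only [Submodule.coe_add, Submodule.coe_smul] at h4
    rw [Submodule.mem_span_pair]
    exact ⟨_, _, h4⟩

/-- independent functionals have a nonzero determinant -/
theorem dt_ne {d : ℕ} {f : Fin d → (E d →L[ℝ] ℝ)} (hf : LinearIndependent ℝ f) : dt f ≠ 0 := by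
  intro h0
  unfold dt at h0
  obtain ⟨v, hv0, hv⟩ := Matrix.exists_vecMul_eq_zero_iff.2 h0
  apply hv0
  have h1 : ∑ i, v i • f i = 0 := by
    apply ContinuousLinearMap.coe_injective
    apply (EuclideanSpace.basisFun (Fin d) ℝ).toBasis.ext
    intro j
    have h2 := congrFun hv j
    simp only [Matrix.vecMul, dotProduct, Matrix.of_apply, Pi.zero_apply] at h2
    simpa using h2
  funext i
  exact Fintype.linearIndependent_iff.1 hf v h1 i

theorem finA (hMX : T_MX) (hNC : T_NC) (hPG : T_PG) (hBC : T_BC) (hBD : T_BD) (hLT : T_LT)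
    (hW1 : T_W1) (hLAD : T_LAD) : ∀ (d : ℕ), 3 ≤ d →
    ∀ f : Fin d → (E d →L[ℝ] ℝ), LinearIndependent ℝ f →
    ∀ W : Submodule ℝ (E d →L[ℝ] ℝ), Module.finrank ℝ W ≤ 2 →
    ∀ K : Set (E d), IsCompact K → Convex ℝ K → (interior K).Nonempty →
    ∃ (w : Fin d → E d) (v : E d), LinearIndependent ℝ w ∧ K ⊆ Par w v ∧
      (∀ T : Set (E d), TotSepIn (Nrm f W) K T →
        upDens K T ≤ volume K / volume (Par w v) ∧
        upDensC K T ≤ volume K / volume (Par w v)) ∧
      TotSepIn (Nrm f W) K (Lat w) ∧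
      upDens K (Lat w) = volume K / volume (Par w v) ∧
      upDensC K (Lat w) = volume K / volume (Par w v) := by
  intro d hd f hf W hW K hK hKc hKi
  have hKn : K.Nonempty := hKi.mono interior_subset
  obtain ⟨-, hhom, -, hpos⟩ := hW1 d K hK hKn
  have hpos' := hpos hKi
  have hfne : ∀ i, f i ≠ 0 := fun i => hf.ne_zero i
  have hwp : ∀ i, 0 < wdt K (f i) := fun i => hpos' _ (hfne i)
  -- normalised functionals
  set f' : Fin d → (E d →L[ℝ] ℝ) := fun i => (wdt K (f i))⁻¹ • f i with hf'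
  have hf'1 : ∀ i, wdt K (f' i) = 1 := by
    intro i
    rw [hf', hhom, abs_of_pos (inv_pos.2 (hwp i))]
    exact inv_mul_cancel₀ (hwp i).ne'
  have hf'li : LinearIndependent ℝ f' := by
    have h1 := hf.units_smul (fun i => Units.mk0 (wdt K (f i))⁻¹ (inv_ne_zero (hwp i).ne'))
    exact h1
  have hN : Nrm f' W = Nrm f W := by
    ext g
    constructor
    · rintro (⟨i, a, rfl⟩ | h)
      · left; exact ⟨i, a * (wdt K (f i))⁻¹, by rw [hf', smul_smul]⟩
      · right; exact h
    · rintro (⟨i, a, rfl⟩ | h)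
      · left
        refine ⟨i, a * wdt K (f i), ?_⟩
        rw [hf']
        simp only
        rw [smul_smul, mul_assoc, mul_inv_cancel₀ (hwp i).ne', mul_one]
      · right; exact h
  have hdt' : dt f' ≠ 0 := dt_ne hf'li
  obtain ⟨hcl, hcone⟩ := hNC d f' W
  obtain ⟨g, hg1, hg2, hg3⟩ := hMX d (Nrm f' W) K hK hKi hcl hcone f'
    (fun i => Or.inl ⟨i, 1, (one_smul _ _).symm⟩) hdt'
  obtain ⟨w, v, hw, hgw, hKP, hvol⟩ := hPG d K g hK hKn (fun i => (hg1 i).2) hg2
  have hrank : 2 ≤ Module.finrank ℝ (E d →L[ℝ] ℝ) := by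
    have h1 := LinearIndependent.fintype_card_le_finrank hf
    rw [Fintype.card_fin] at h1
    omega
  obtain ⟨p, q, hpq, hWpq⟩ := exists_pq W hW hrank
  have hdg : 0 < |dt g| := abs_pos.2 hg2
  have hdf : 0 < |dt f'| := abs_pos.2 hdt'
  have hc1 : 1 ≤ |dt g| / |dt f'| := by
    rw [le_div_iff₀ hdf, one_mul]
    exact hg3 f' (fun i => ⟨Or.inl ⟨i, 1, (one_smul _ _).symm⟩, hf'1 i⟩)
  have hvol' : volume K * ENNReal.ofReal |dt g| = volume K / volume (Par w v) := by
    have h1 : ENNReal.ofReal |dt g| = (volume (Par w v))⁻¹ :=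
      ENNReal.eq_inv_of_mul_eq_one_left (by rw [mul_comm]; exact hvol)
    rw [h1, ENNReal.div_eq_inv_mul, mul_comm]
  have hub : ∀ T : Set (E d), TotSepIn (Nrm f W) K T →
        upDens K T ≤ volume K / volume (Par w v) ∧
        upDensC K T ≤ volume K / volume (Par w v) := by
    intro T hT
    rw [← hN] at hT
    have h1 := hBC d K T f' g p q W (by omega) hK hKc hKi hdt' hf'1 hpq hWpq hg3 hT
    have h2 := hBD d K T f' (|dt g| / |dt f'|) (by omega) hK hdt' hc1 h1
    rw [div_mul_cancel₀ _ hdf.ne', hvol'] at h2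
    exact h2
  have hL : TotSepIn (Nrm f W) K (Lat w) := by
    rw [← hN]
    exact hLT d w v K g (Nrm f' W) hw hgw (fun i => (hg1 i).1) hcone hKP
  obtain ⟨h3, h4⟩ := hLAD d w v K (by omega) hw hK hKc hKP
  exact ⟨w, v, hw, hKP, hub, hL, le_antisymm (hub _ hL).1 h3, le_antisymm (hub _ hL).2 h4⟩

end Pool.Agent.H74.TSD
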