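import Pool.Agent.H74.TSD.Targets

/-!
# Assembly of the theorem on cylinders
-/

set_option autoImplicit false

open MeasureTheory Set Metric Filter
open scoped ENNReal Pointwise Topology

namespace Pool.Agent.H74.TSD

open Pool.Agent.H73.TS

theorem finC (hCN : T_CN) (hCD : T_CD) (hLAT : T_LAT) (hLAD : T_LAD) : ∀ (n : ℕ), 1 ≤ n →
    ∀ (A : Set (ℝ × ℝ)), IsCompact A → Convex ℝ A → (interior A).Nonempty →
    ∀ (w : Fin (n + 2) → E (n + 2)) (v : E (n + 2)), LinearIndependent ℝ w →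
    ∃ (w' : Fin (n + 2) → E (n + 2)) (v' : E (n + 2)), LinearIndependent ℝ w' ∧
      Cyl w v A ⊆ Par w' v' ∧
      ∀ K : Set (E (n + 2)), IsCompact K → Convex ℝ K → (interior K).Nonempty →
        AsWide (Cyl w v A) K →
        (∀ T : Set (E (n + 2)), TotSep K T →
          upDens K T ≤ volume K / volume (Par w' v') ∧
          upDensC K T ≤ volume K / volume (Par w' v')) ∧
        (∀ (w₂ : Fin (n + 2) → E (n + 2)) (v₂ : E (n + 2)), LinearIndependent ℝ w₂ →
          K ⊆ Par w₂ v₂ → volume (Par w' v') ≤ volume (Par w₂ v₂)) ∧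
        (K ⊆ Par w' v' →
          Packing K (Lat w') ∧ TotSep K (Lat w') ∧
          upDens K (Lat w') = volume K / volume (Par w' v') ∧
          upDensC K (Lat w') = volume K / volume (Par w' v')) := by
  intro n hn A hA hAc hAi w v hw
  obtain ⟨w', v', A', hw', hA', hAc', hAi', hbest, -, hcyl, hsub⟩ := hCN n w v A hw hA hAc hAi
  refine ⟨w', v', hw', hsub, ?_⟩
  intro K hK hKc hKi hAs
  have hub : ∀ T : Set (E (n + 2)), TotSep K T →
      upDens K T ≤ volume K / volume (Par w' v') ∧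
      upDensC K T ≤ volume K / volume (Par w' v') := by
    intro T hT
    rw [← hcyl] at hAs
    exact hCD n w' v' A' K T hw' hA' hAi' hbest hK hKc hKi hAs hT
  have hK0 : volume K ≠ 0 := fun h =>
    (IsOpen.measure_pos volume isOpen_interior hKi).ne' (measure_mono_null interior_subset h)
  have hKt : volume K ≠ ⊤ := hK.measure_lt_top.ne
  refine ⟨hub, ?_, ?_⟩
  · intro w₂ v₂ hw₂ hK₂
    have h1 := (hLAT (n + 2) w₂ v₂ K hw₂ hK₂).2
    have h2 := (hLAD (n + 2) w₂ v₂ K (by omega) hw₂ hK hKc hK₂).1.trans (hub _ h1).1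
    rw [ENNReal.div_eq_inv_mul, ENNReal.div_eq_inv_mul,
      ENNReal.mul_le_mul_iff_left hK0 hKt, ENNReal.inv_le_inv] at h2
    exact h2
  · intro hKP
    obtain ⟨h1, h2⟩ := hLAT (n + 2) w' v' K hw' hKP
    obtain ⟨h3, h4⟩ := hLAD (n + 2) w' v' K (by omega) hw' hK hKc hKP
    exact ⟨h1, h2, le_antisymm (hub _ h2).1 h3, le_antisymm (hub _ h2).2 h4⟩

end Pool.Agent.H74.TSD
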