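import Pool.Agent.H74.TSD.Targets

/-!
# Assembly of the universal bound in dimension three
-/

set_option autoImplicit false

open MeasureTheory Set Metric Filter
open scoped ENNReal Pointwise Topology

namespace Pool.Agent.H74.TSD

open Pool.Agent.H73.TS

theorem vol_div {d : ℕ} {P K : Set (E d)} {r : ℝ} (h : volume P * ENNReal.ofReal r = 1) :
    volume K / volume P = volume K * ENNReal.ofReal r := by
  have h1 : ENNReal.ofReal r = (volume P)⁻¹ :=
    ENNReal.eq_inv_of_mul_eq_one_left (by rw [mul_comm]; exact h)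
  rw [h1, ENNReal.div_eq_inv_mul, mul_comm]

theorem finV (hLO : T_LO) (hAV : T_AV) (hDV : T_DV) (hEW : T_EW) (hPG : T_PG)
    (hUPC : T_UPC) (hCNTP : ∀ k : ℕ, 2 ≤ k → k ≤ 8 → CNTP k) :
    ∀ K : Set (E 3), IsCompact K → Convex ℝ K → (interior K).Nonempty →
    ∃ (w : Fin 3 → E 3) (v : E 3), LinearIndependent ℝ w ∧ K ⊆ Par w v ∧
      ∀ T : Set (E 3), TotSep K T →
        upDens K T ≤ ENNReal.ofReal (Real.sqrt (5 / 2)) * (volume K / volume (Par w v)) ∧
        upDensC K T ≤ ENNReal.ofReal (Real.sqrt (5 / 2)) * (volume K / volume (Par w v)) := by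
  intro K hK hKc hKi
  have hKn : K.Nonempty := hKi.mono interior_subset
  obtain ⟨B, hB1, hB2⟩ := hLO K hK hKi
  obtain ⟨a, ha, b, hb, c, hc, hdet⟩ := hAV _ (fun a ha => ha.1) hB2
  have hg1 : ∀ i, wdt K ((![fa B a, fa B b, fa B c] : Fin 3 → (E 3 →L[ℝ] ℝ)) i) = 1 := by
    intro i
    fin_cases i
    · exact ha.2
    · exact hb.2
    · exact hc.2
  have hdB : LinearMap.det (B : E 3 →ₗ[ℝ] E 3) ≠ 0 := by
    have := B.toLinearEquiv.isUnit_det'
    exact this.ne_zero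
  have h3 : det3 a b c ≠ 0 := by
    intro h
    rw [h] at hdet
    norm_num at hdet
  have hg2 : dt ![fa B a, fa B b, fa B c] ≠ 0 := by
    rw [hDV]; exact mul_ne_zero h3 hdB
  obtain ⟨w, v, hw, -, hKP, hvol⟩ := hPG 3 K _ hK hKn hg1 hg2
  obtain ⟨w₂, hw₂, hAs, hvol₂⟩ := hEW B K hK hKn hB1
  refine ⟨w, v, hw, hKP, ?_⟩
  intro T hT
  have h4 := hUPC 8 (by norm_num) hCNTP 3 Finset.univ w₂ 0 K T (by norm_num) (by simp) hw₂ hK
    hKc hKi hAs hT
  rw [vol_div hvol₂] at h4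
  rw [vol_div hvol]
  have h5 : |LinearMap.det (B : E 3 →ₗ[ℝ] E 3)| ≤
      Real.sqrt (5 / 2) * |dt ![fa B a, fa B b, fa B c]| := by
    rw [hDV, abs_mul]
    have h6 : 1 ≤ Real.sqrt (5 / 2) * |det3 a b c| := by
      rw [← Real.sqrt_sq_eq_abs, ← Real.sqrt_mul (by norm_num)]
      rw [Real.one_le_sqrt]
      linarith
    calc |LinearMap.det (B : E 3 →ₗ[ℝ] E 3)| = 1 * |LinearMap.det (B : E 3 →ₗ[ℝ] E 3)| :=
          (one_mul _).symm
      _ ≤ (Real.sqrt (5 / 2) * |det3 a b c|) * |LinearMap.det (B : E 3 →ₗ[ℝ] E 3)| :=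
          mul_le_mul_of_nonneg_right h6 (abs_nonneg _)
      _ = _ := by ring
  have h7 : volume K * ENNReal.ofReal |LinearMap.det (B : E 3 →ₗ[ℝ] E 3)| ≤
      ENNReal.ofReal (Real.sqrt (5 / 2)) *
        (volume K * ENNReal.ofReal |dt ![fa B a, fa B b, fa B c]|) := by
    calc volume K * ENNReal.ofReal |LinearMap.det (B : E 3 →ₗ[ℝ] E 3)|
        ≤ volume K * ENNReal.ofReal
          (Real.sqrt (5 / 2) * |dt ![fa B a, fa B b, fa B c]|) := by gcongr
      _ = _ := by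
        rw [ENNReal.ofReal_mul (Real.sqrt_nonneg _)]
        ring
  exact ⟨h4.1.trans h7, h4.2.trans h7⟩

end Pool.Agent.H74.TSD
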