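import Pool.Agent.H74.TSD.Defs
import Pool.Agent.H73.TS.TargetsC

/-!
# The statements of the modules of the board tsd_modules
-/

set_option autoImplicit false

open MeasureTheory Set Metric Filter
open scoped ENNReal Pointwise Topology

namespace Pool.Agent.H74.TSD

open Pool.Agent.H73.TS

/-! ## The planar inequality -/

/-- A1: the area by horizontal slices -/
def T_A1 : Prop := ∀ X : Set (ℝ × ℝ), IsCompact X →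
  Integrable (fun h : ℝ => (volume {t : ℝ | (t, h) ∈ X}).toReal) ∧
  ar X = ∫ h : ℝ, (volume {t : ℝ | (t, h) ∈ X}).toReal

/-- A2: adding a horizontal segment -/
def T_A2 : Prop := ∀ (X : Set (ℝ × ℝ)) (a e p l t : ℝ), IsCompact X → Convex ℝ X → 0 ≤ e →
  0 ≤ l → (∀ x ∈ X, a ≤ x.2 ∧ x.2 ≤ a + e) → ar (X + hsg p l t) ≤ ar X + l * e

/-- A3: a trapezoid -/
def T_A3 : Prop := ∀ (P : Set (ℝ × ℝ)) (t p q l m κ : ℝ), IsCompact P → Convex ℝ P → 0 ≤ l →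
  0 ≤ m → 0 ≤ κ → (p, t) ∈ P → (p + l, t) ∈ P → (q, t + 1) ∈ P → (q + m, t + 1) ∈ P →
  (∀ x ∈ P, t ≤ x.2 ∧ x.2 ≤ t + 1) → (l + m) / 2 + 2 * κ ≤ ar (P + hsg (-κ) (2 * κ) 0)

/-- A4: the valuation property -/
def T_A4 : Prop := ∀ (Z C : Set (ℝ × ℝ)) (t : ℝ), IsCompact Z → Convex ℝ Z → IsCompact C →
  Convex ℝ C → (Z ∩ {x | x.2 ≤ t}).Nonempty → (Z ∩ {x | t ≤ x.2}).Nonempty →
  ar (Z + C) + ar (Z ∩ {x | x.2 = t} + C) =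
    ar (Z ∩ {x | x.2 ≤ t} + C) + ar (Z ∩ {x | t ≤ x.2} + C)

/-- A5: the two halves of a symmetric body -/
def T_A5 : Prop := ∀ (C : Set (ℝ × ℝ)) (p l t : ℝ), IsCompact C → (∀ x ∈ C, -x ∈ C) → 0 ≤ l →
  ar ((hsg p l t + C) ∩ {x | x.2 < t}) = ar (hsg p l t + C) / 2 ∧
  ar ((hsg p l t + C) ∩ {x | t < x.2}) = ar (hsg p l t + C) / 2

/-- A6: the inequality for the part in the slab -/
def T_A6 : Prop := ∀ (Z C : Set (ℝ × ℝ)) (t κ : ℝ), IsCompact Z → Convex ℝ Z → IsCompact C →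
  Convex ℝ C → (∀ x ∈ C, -x ∈ C) → (∀ x ∈ C, |x.2| ≤ 1 / 2) → 0 ≤ κ → (κ, 0) ∈ C →
  (Z ∩ {x | x.2 = t}).Nonempty → (Z ∩ {x | x.2 = t + 1}).Nonempty →
  (∀ x ∈ Z, t ≤ x.2 ∧ x.2 ≤ t + 1) →
  ar (Z ∩ {x | x.2 = t} + C) + ar (Z ∩ {x | x.2 = t + 1} + C) + 2 * κ ≤ ar (Z + C) + ar C

/-- A7: the slab inequality for the second coordinate -/
def T_A7 : Prop := ∀ (Z C : Set (ℝ × ℝ)) (t κ : ℝ), IsCompact Z → Convex ℝ Z → IsCompact C →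
  Convex ℝ C → (∀ x ∈ C, -x ∈ C) → (∀ x ∈ C, |x.2| ≤ 1 / 2) → 0 ≤ κ → (κ, 0) ∈ C →
  (Z ∩ {x | x.2 ≤ t}).Nonempty → (Z ∩ {x | t + 1 ≤ x.2}).Nonempty →
  ar (Z ∩ {x | x.2 ≤ t} + C) + ar (Z ∩ {x | t + 1 ≤ x.2} + C) + 2 * κ ≤ ar (Z + C) + ar C

/-- LM: linear maps of the plane -/
def T_LM : Prop := ∀ (a b c e : ℝ) (X : Set (ℝ × ℝ)),
  ar ((fun x : ℝ × ℝ => (a * x.1 + b * x.2, c * x.1 + e * x.2)) '' X) = |a * e - b * c| * ar X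

/-- A8: the slab inequality for an arbitrary functional -/
def T_A8 : Prop := ∀ (Z C : Set (ℝ × ℝ)) (p : ℝ × ℝ) (t κ : ℝ), p ≠ 0 → IsCompact Z →
  Convex ℝ Z → IsCompact C → Convex ℝ C → (∀ x ∈ C, -x ∈ C) → (∀ x ∈ C, |ev p x| ≤ 1 / 2) →
  0 ≤ κ → κ • rot p ∈ C →
  (Z ∩ {x | ev p x ≤ t}).Nonempty → (Z ∩ {x | t + 1 ≤ ev p x}).Nonempty →
  ar (Z ∩ {x | ev p x ≤ t} + C) + ar (Z ∩ {x | t + 1 ≤ ev p x} + C) + 2 * κ ≤ ar (Z + C) + ar C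

/-- A9: adding a segment -/
def T_A9 : Prop := ∀ (X : Set (ℝ × ℝ)) (v : ℝ × ℝ) (e : ℝ), IsCompact X → Convex ℝ X → 0 ≤ e →
  (∀ x ∈ X, ∀ y ∈ X, wd v x - wd v y ≤ e) → ar (X + seg v) ≤ ar X + e

/-- PT: counting in the plane -/
def T_PT : Prop := ∀ (U : Set (ℝ × ℝ)) (M : ℝ) (C Z : Set (ℝ × ℝ)) (S : Finset (ℝ × ℝ)),
  0 < M → Good U M C → IsCompact Z → Convex ℝ Z → (S : Set (ℝ × ℝ)) ⊆ Z → S.Nonempty →
  SepBy U S → (S.card : ℝ) ≤ 1 + M * (ar (Z + C) - ar C)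

/-! ## Boxes -/

/-- LF: the area of a zonotope plus a test body -/
def T_LF : Prop := ∀ (d : ℕ) (γ : Fin d → ℝ × ℝ) (M c : ℝ) (C : Set (ℝ × ℝ)) (b : Fin d → ℝ),
  0 < M → 0 ≤ c → IsCompact C → Convex ℝ C → C.Nonempty →
  (∀ i, ∀ x ∈ C, |wd (γ i) x| ≤ c / (2 * M)) → (∀ i j, M * |wd (γ i) (γ j)| ≤ c) →
  (∀ i, 0 ≤ b i) →
  M * (ar ({x | ∃ a : Fin d → ℝ, (∀ i, 0 ≤ a i ∧ a i ≤ b i) ∧ x = pr γ a} + C) - ar C) ≤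
    c * (∏ i, (1 + b i) - 1)

/-- GC: the canonical test body -/
def T_GC : Prop := ∀ (d : ℕ) (γ : Fin d → ℝ × ℝ) (U : Set (ℝ × ℝ)) (M c : ℝ), 0 < M → 0 ≤ c →
  (∀ p ∈ U, ∀ q ∈ U, |wd p q| ≤ M) → (∀ p ∈ U, ∀ i, |ev p (γ i)| ≤ c) →
  (∃ i j, wd (γ i) (γ j) ≠ 0) →
  ∃ C : Set (ℝ × ℝ), Good U M C ∧ C.Nonempty ∧ ∀ i, ∀ x ∈ C, |wd (γ i) x| ≤ c / (2 * M)

/-- CT: counting in boxes -/
def T_CT : Prop := ∀ (d : ℕ) (γ : Fin d → ℝ × ℝ) (U : Set (ℝ × ℝ)) (M c : ℝ), 0 < M → 1 ≤ c →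
  (∀ p ∈ U, ∀ q ∈ U, |wd p q| ≤ M) → (∀ p ∈ U, ∀ i, |ev p (γ i)| ≤ c) →
  (∀ i j, M * |wd (γ i) (γ j)| ≤ c) → (∃ i j, wd (γ i) (γ j) ≠ 0) →
  ∀ (a b : Fin d → ℝ) (S : Finset (Fin d → ℝ)), (∀ i, 0 ≤ b i) →
    (∀ x ∈ S, ∀ i, a i ≤ x i ∧ x i ≤ a i + b i) → SepMix γ U S →
    (S.card : ℝ) ≤ 1 + c * (∏ i, (1 + b i) - 1)

/-! ## Widths and determinants -/

/-- W1: basic properties of the width -/
def T_W1 : Prop := ∀ (d : ℕ) (K : Set (E d)), IsCompact K → K.Nonempty →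
  (∀ f : E d →L[ℝ] ℝ, ∃ x ∈ K, ∃ y ∈ K, wdt K f = f x - f y ∧ ∀ z ∈ K, f y ≤ f z ∧ f z ≤ f x) ∧
  (∀ (f : E d →L[ℝ] ℝ) (a : ℝ), wdt K (a • f) = |a| * wdt K f) ∧
  Continuous (fun f : E d →L[ℝ] ℝ => wdt K f) ∧
  ((interior K).Nonempty → ∀ f : E d →L[ℝ] ℝ, f ≠ 0 → 0 < wdt K f)

/-- SIN: unit slabs from separating hyperplanes -/
def T_SIN : Prop := ∀ (d : ℕ) (N : Set (E d →L[ℝ] ℝ)) (K T : Set (E d)), IsCompact K →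
  Convex ℝ K → (interior K).Nonempty → (∀ f ∈ N, ∀ a : ℝ, a • f ∈ N) → TotSepIn N K T →
  ∀ t ∈ T, ∀ s ∈ T, t ≠ s → ∃ g ∈ N, wdt K g = 1 ∧ ∃ c : ℝ, g t ≤ c ∧ c + 1 ≤ g s ∧
    ∀ u ∈ T, g u ≤ c ∨ c + 1 ≤ g u

/-- NC: the set of the normals is a closed cone -/
def T_NC : Prop := ∀ (d : ℕ) (f : Fin d → (E d →L[ℝ] ℝ)) (W : Submodule ℝ (E d →L[ℝ] ℝ)),
  IsClosed (Nrm f W) ∧ ∀ g ∈ Nrm f W, ∀ a : ℝ, a • g ∈ Nrm f W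

/-- MX: the best circumscribed parallelotope with normals in `N` -/
def T_MX : Prop := ∀ (d : ℕ) (N : Set (E d →L[ℝ] ℝ)) (K : Set (E d)), IsCompact K →
  (interior K).Nonempty → IsClosed N → (∀ f ∈ N, ∀ a : ℝ, a • f ∈ N) →
  ∀ f : Fin d → (E d →L[ℝ] ℝ), (∀ i, f i ∈ N) → dt f ≠ 0 →
  ∃ g : Fin d → (E d →L[ℝ] ℝ), (∀ i, g i ∈ N ∧ wdt K (g i) = 1) ∧ dt g ≠ 0 ∧
    ∀ h : Fin d → (E d →L[ℝ] ℝ), (∀ i, h i ∈ N ∧ wdt K (h i) = 1) → |dt h| ≤ |dt g|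

/-- PG: the parallelotope of `d` functionals of width one -/
def T_PG : Prop := ∀ (d : ℕ) (K : Set (E d)) (g : Fin d → (E d →L[ℝ] ℝ)), IsCompact K →
  K.Nonempty → (∀ i, wdt K (g i) = 1) → dt g ≠ 0 →
  ∃ (w : Fin d → E d) (v : E d), LinearIndependent ℝ w ∧
    (∀ i j, g i (w j) = if i = j then 1 else 0) ∧ K ⊆ Par w v ∧
    volume (Par w v) * ENNReal.ofReal |dt g| = 1

/-- D2: replacing one or two functionals of a basis -/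
def T_D2 : Prop := ∀ (d : ℕ) (f : Fin d → (E d →L[ℝ] ℝ)) (w : Fin d → E d),
  (∀ i j, f i (w j) = if i = j then 1 else 0) →
  (∀ (φ : E d →L[ℝ] ℝ) (i : Fin d), dt (Function.update f i φ) = φ (w i) * dt f) ∧
  (∀ (φ ψ : E d →L[ℝ] ℝ) (i j : Fin d), i ≠ j →
    dt (Function.update (Function.update f i φ) j ψ) =
      (φ (w i) * ψ (w j) - φ (w j) * ψ (w i)) * dt f)

/-- BC: counting the members of a totally separable family in boxes -/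
def T_BC : Prop := ∀ (d : ℕ) (K T : Set (E d)) (f g : Fin d → (E d →L[ℝ] ℝ))
  (p q : E d →L[ℝ] ℝ) (W : Submodule ℝ (E d →L[ℝ] ℝ)), 2 ≤ d → IsCompact K → Convex ℝ K →
  (interior K).Nonempty → dt f ≠ 0 → (∀ i, wdt K (f i) = 1) → LinearIndependent ℝ ![p, q] →
  W ≤ Submodule.span ℝ {p, q} →
  (∀ h : Fin d → (E d →L[ℝ] ℝ), (∀ i, h i ∈ Nrm f W ∧ wdt K (h i) = 1) → |dt h| ≤ |dt g|) →
  TotSepIn (Nrm f W) K T → BoxCount f T (|dt g| / |dt f|)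

/-- BD: from the counting in boxes to the densities -/
def T_BD : Prop := ∀ (d : ℕ) (K T : Set (E d)) (f : Fin d → (E d →L[ℝ] ℝ)) (c : ℝ), 1 ≤ d →
  IsCompact K → dt f ≠ 0 → 1 ≤ c → BoxCount f T c →
  upDens K T ≤ volume K * ENNReal.ofReal (c * |dt f|) ∧
  upDensC K T ≤ volume K * ENNReal.ofReal (c * |dt f|)

/-- LT: the lattice packing -/
def T_LT : Prop := ∀ (d : ℕ) (w : Fin d → E d) (v : E d) (K : Set (E d))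
  (g : Fin d → (E d →L[ℝ] ℝ)) (N : Set (E d →L[ℝ] ℝ)), LinearIndependent ℝ w →
  (∀ i j, g i (w j) = if i = j then 1 else 0) → (∀ i, g i ∈ N) →
  (∀ h ∈ N, ∀ a : ℝ, a • h ∈ N) → K ⊆ Par w v → TotSepIn N K (Lat w)

/-! ## Cylinders -/

/-- W2: basic properties of the width of a planar body, and its smallest circumscribed
parallelogram -/
def T_W2 : Prop := ∀ A : Set (ℝ × ℝ), IsCompact A → (interior A).Nonempty →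
  (∀ p : ℝ × ℝ, ∃ x ∈ A, ∃ y ∈ A, wdt2 A p = ev p x - ev p y ∧
    ∀ z ∈ A, ev p y ≤ ev p z ∧ ev p z ≤ ev p x) ∧
  (∀ (p : ℝ × ℝ) (a : ℝ), wdt2 A (a • p) = |a| * wdt2 A p) ∧
  Continuous (fun p : ℝ × ℝ => wdt2 A p) ∧ (∀ p : ℝ × ℝ, p ≠ 0 → 0 < wdt2 A p) ∧
  ∃ p q : ℝ × ℝ, wdt2 A p = 1 ∧ wdt2 A q = 1 ∧ 0 < wd p q ∧
    ∀ p' q' : ℝ × ℝ, wdt2 A p' = 1 → wdt2 A q' = 1 → |wd p' q'| ≤ wd p q

/-- G2: the test body of a planar body -/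
def T_G2 : Prop := ∀ A : Set (ℝ × ℝ), IsCompact A → (interior A).Nonempty →
  (∀ p q : ℝ × ℝ, wdt2 A p = 1 → wdt2 A q = 1 → |wd p q| ≤ 1) →
  ∃ C : Set (ℝ × ℝ), Good {p | wdt2 A p = 1} 1 C ∧ C.Nonempty

/-- CW: the width of a body at least as wide as a cylinder -/
def T_CW : Prop := ∀ (n : ℕ) (w : Fin (n + 2) → E (n + 2)) (v : E (n + 2)) (A : Set (ℝ × ℝ))
  (K : Set (E (n + 2))), IsCompact A → A.Nonempty → IsCompact K → K.Nonempty →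
  AsWide (Cyl w v A) K → ∀ f : E (n + 2) →L[ℝ] ℝ,
    wdt2 A (f (w 0), f (w 1)) + ∑ i : Fin n, |f (w i.succ.succ)| ≤ wdt K f

/-- CC: counting in a window -/
def T_CC : Prop := ∀ (n : ℕ) (w : Fin (n + 2) → E (n + 2)) (v : E (n + 2)) (A C : Set (ℝ × ℝ))
  (K T : Set (E (n + 2))) (φ : Fin (n + 2) → (E (n + 2) →L[ℝ] ℝ)),
  IsCompact A → (interior A).Nonempty → Good {p | wdt2 A p = 1} 1 C →
  (∀ i j, φ i (w j) = if i = j then 1 else 0) → IsCompact K → Convex ℝ K →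
  (interior K).Nonempty → AsWide (Cyl w v A) K → TotSep K T →
  ∀ (m : Fin n → ℤ) (a₀ a₁ b : ℝ) (S : Finset (E (n + 2))), (S : Set (E (n + 2))) ⊆ T → 0 ≤ b →
    (∀ u ∈ S, a₀ ≤ φ 0 u ∧ φ 0 u ≤ a₀ + b ∧ a₁ ≤ φ 1 u ∧ φ 1 u ≤ a₁ + b ∧
      ∀ i : Fin n, (m i : ℝ) ≤ φ i.succ.succ u ∧ φ i.succ.succ u < m i + 1) →
    (S.card : ℝ) ≤ 1 + (ar (Set.Icc (a₀, a₁) (a₀ + b, a₁ + b) + C) - ar C)

/-- CD: the density bound for cylinders in normal position -/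
def T_CD : Prop := ∀ (n : ℕ) (w : Fin (n + 2) → E (n + 2)) (v : E (n + 2)) (A : Set (ℝ × ℝ))
  (K T : Set (E (n + 2))), LinearIndependent ℝ w → IsCompact A → (interior A).Nonempty →
  (∀ p q : ℝ × ℝ, wdt2 A p = 1 → wdt2 A q = 1 → |wd p q| ≤ 1) → IsCompact K → Convex ℝ K →
  (interior K).Nonempty → AsWide (Cyl w v A) K → TotSep K T →
  upDens K T ≤ volume K / volume (Par w v) ∧ upDensC K T ≤ volume K / volume (Par w v)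

/-- CN: normal position of a cylinder -/
def T_CN : Prop := ∀ (n : ℕ) (w : Fin (n + 2) → E (n + 2)) (v : E (n + 2)) (A : Set (ℝ × ℝ)),
  LinearIndependent ℝ w → IsCompact A → Convex ℝ A → (interior A).Nonempty →
  ∃ (w' : Fin (n + 2) → E (n + 2)) (v' : E (n + 2)) (A' : Set (ℝ × ℝ)),
    LinearIndependent ℝ w' ∧ IsCompact A' ∧ Convex ℝ A' ∧ (interior A').Nonempty ∧
    (∀ p q : ℝ × ℝ, wdt2 A' p = 1 → wdt2 A' q = 1 → |wd p q| ≤ 1) ∧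
    A' ⊆ Set.Icc (0, 0) (1, 1) ∧ Cyl w' v' A' = Cyl w v A ∧ Cyl w v A ⊆ Par w' v'

/-! ## Dimension three: a universal bound -/

/-- LO: the ellipsoid of least volume around the polar of the difference body -/
def T_LO : Prop := ∀ K : Set (E 3), IsCompact K → (interior K).Nonempty →
  ∃ B : E 3 ≃L[ℝ] E 3, (∀ a : E 3, ‖a‖ ≤ wdt K (fa B a)) ∧
    (![1 / 3, 1 / 3, 0, 0, 0] : Fin 5 → ℝ) ∈
      convexHull ℝ (qd '' {a : E 3 | ‖a‖ = 1 ∧ wdt K (fa B a) = 1})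

/-- PB: perturbation of the identity in the proof of `T_LO` -/
def T_PB : Prop := ∀ (N : E 3 → ℝ), Continuous N → (∀ a, ‖a‖ ≤ N a) →
  (∀ (s : ℝ) (a : E 3), N (s • a) = |s| * N a) →
  (∀ G : E 3 →L[ℝ] E 3, (∀ a, ‖G a‖ ≤ N a) → |LinearMap.det (G : E 3 →ₗ[ℝ] E 3)| ≤ 1) →
  (![1 / 3, 1 / 3, 0, 0, 0] : Fin 5 → ℝ) ∈ convexHull ℝ (qd '' {a : E 3 | ‖a‖ = 1 ∧ N a = 1})

/-- AE: an elementary inequality -/
def T_AE : Prop := ∀ (n : ℕ) (x : Fin n → ℝ), n ≤ 6 → (∀ i, 0 ≤ x i) → ∑ i, x i = 1 →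
  ∑ i, ∑ j, ∑ k, (if i ≠ j ∧ i ≠ k ∧ j ≠ k then x i * x j * x k else 0) ≤ 5 / 9

/-- AV: three contact vectors with a large determinant -/
def T_AV : Prop := ∀ X : Set (E 3), (∀ a ∈ X, ‖a‖ = 1) →
  (![1 / 3, 1 / 3, 0, 0, 0] : Fin 5 → ℝ) ∈ convexHull ℝ (qd '' X) →
  ∃ a ∈ X, ∃ b ∈ X, ∃ c ∈ X, 2 / 5 ≤ det3 a b c ^ 2

/-- DV: the determinant of three functionals -/
def T_DV : Prop := ∀ (B : E 3 ≃L[ℝ] E 3) (a b c : E 3),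
  dt ![fa B a, fa B b, fa B c] = det3 a b c * LinearMap.det (B : E 3 →ₗ[ℝ] E 3)

/-- EW: comparison with an ellipsoid -/
def T_EW : Prop := ∀ (B : E 3 ≃L[ℝ] E 3) (K : Set (E 3)), IsCompact K → K.Nonempty →
  (∀ a : E 3, ‖a‖ ≤ wdt K (fa B a)) →
  ∃ w : Fin 3 → E 3, LinearIndependent ℝ w ∧ AsWide (EllPar w 0 Finset.univ) K ∧
    volume (Par w 0) * ENNReal.ofReal |LinearMap.det (B : E 3 →ₗ[ℝ] E 3)| = 1

end Pool.Agent.H74.TSD
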